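import Mathlib
import Pool.Agent.J4H16.AS.Defs2

/-! Project AS (helper16): job ATT. -/

set_option autoImplicit false
open Set Filter Topology Metric Complex MeasureTheory

namespace Pool.Agent.J4H56.AS

open Pool.Agent.J4H16 Pool.Agent.J4H16.AS Pool.Agent.W746.LD

theorem t_ATT : S_ATT := by
  intro n c r h C1 ε1 hC1 hε1 hε11
  have hn := h.hn
  obtain ⟨C0, c0, Kc⟩ := exists_KC
  have hc0 := Kc.pos
  have hC0 := Kc.one_le
  obtain ⟨k, hk⟩ := exists_rad (show 1 - ε1 < 1 by linarith)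
  set E : ℝ := c0 / (64 * C1 * C0 ^ (2 * k)) with hE
  have hE0 : 0 < E := by positivity
  refine ⟨min (1 / 2) E, lt_min (by norm_num) hE0, ?_⟩
  intro s R i y v hh hs hsR hRs hbr hy hv hvc hyn
  set ε' : ℝ := min (1 / 2) E with hε'
  have hε'0 : 0 < ε' := lt_min (by norm_num) hE0
  have hε'1 : ε' ≤ 1 / 2 := min_le_left _ _
  have hε'2 : ε' ≤ E := min_le_right _ _
  by_contra hcon
  push Not at hcon
  have hR : 0 < R := hs.trans_le hsR
  have hpow : (0 : ℝ) < (3 / 4) ^ k := by positivity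
  have hbig : (1 - ε1) * R ≤ (1 - (3 / 4) ^ k) * R := by gcongr
  have h1 := KC.rad_lip2 Kc hR hbr.univ k hbig hy hv
  rw [hvc] at h1
  set D : ℝ := ‖deriv hh v‖ with hD
  have hvR : v ∈ ball (0 : ℂ) R := by
    rw [mem_ball, dist_zero_right]
    nlinarith
  have hD0 : 0 < D := norm_pos_iff.mpr (hbr.deriv_ne hvR)
  have h2 : s ^ n ≤ 2 * (C1 * s) * C0 ^ (2 * k) * D := by
    refine (hyn.trans h1).trans ?_
    have : (1 - ε1) * R ≤ C1 * s := by nlinarith
    gcongr
  set τ : ℝ := 2 * ε' * s with hτ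
  have hτ0 : 0 < τ := by positivity
  have hτs : τ ≤ s := by
    rw [hτ]
    nlinarith
  have hvτ : ‖v‖ < τ / 2 := by
    rw [hτ]
    linarith
  have hτR : τ ≤ R := hτs.trans hsR
  have hd0 : 0 < τ - ‖v‖ := by linarith
  have hkey : 4 * τ ^ n < c0 * (τ - ‖v‖) * D := by
    have h3 : (2 * ε') ^ n ≤ (2 * ε') ^ 2 :=
      pow_le_pow_of_le_one (by positivity) (by linarith) hn
    have h4 : 4 * τ ^ n ≤ 16 * ε' ^ 2 * s ^ n := by
      rw [hτ, mul_pow]
      calc 4 * ((2 * ε') ^ n * s ^ n) ≤ 4 * ((2 * ε') ^ 2 * s ^ n) := by gcongr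
        _ = 16 * ε' ^ 2 * s ^ n := by ring
    have h5 : 16 * ε' ^ 2 * s ^ n ≤ 16 * ε' ^ 2 * (2 * (C1 * s) * C0 ^ (2 * k) * D) := by gcongr
    have h6 : ε' * (64 * C1 * C0 ^ (2 * k)) ≤ c0 := by
      rw [hE] at hε'2
      rwa [le_div_iff₀ (by positivity)] at hε'2
    have h7 : 16 * ε' ^ 2 * (2 * (C1 * s) * C0 ^ (2 * k) * D)
        = (ε' * (64 * C1 * C0 ^ (2 * k))) * (ε' * s * D) / 2 := by ring
    have h8 : (ε' * (64 * C1 * C0 ^ (2 * k))) * (ε' * s * D) ≤ c0 * (ε' * s * D) := by gcongr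
    have h9 : c0 * (ε' * s * D) = c0 * (τ / 2) * D := by
      rw [hτ]
      ring
    have h10 : c0 * (τ / 2) * D ≤ c0 * (τ - ‖v‖) * D := by
      have : τ / 2 ≤ τ - ‖v‖ := by linarith
      gcongr
    have h11 : 0 < c0 * (τ / 2) * D := by positivity
    linarith
  have hov : orb n c c i = v := by
    have := hbr.eq v hvR
    rwa [hvc] at this
  obtain ⟨z, hz⟩ := attr_per (n := n) (c := c) (N := i + 1) (by omega) (s := 4 * τ ^ n)
    (by positivity) (by
      intro x hx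
      have hsub : ball v (τ - ‖v‖) ⊆ ball 0 R := by
        intro u hu'
        rw [mem_ball, dist_eq_norm] at hu'
        rw [mem_ball, dist_zero_right]
        have := norm_add_le (u - v) v
        rw [sub_add_cancel] at this
        linarith
      obtain ⟨h3, -⟩ := hbr.cover Kc hd0 hsub (a := x) (by rw [hvc]; linarith)
      rw [mem_ball, dist_eq_norm] at h3
      rw [norm_orb_succ_sub]
      have h4 : ‖orb n c x i‖ ≤ τ := by
        have := norm_add_le (orb n c x i - v) v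
        rw [sub_add_cancel] at this
        linarith
      calc ‖orb n c x i‖ ^ n ≤ τ ^ n := by gcongr
        _ = 4 * τ ^ n / 4 := by ring)
  exact h.na c (mem_ball_self h.hr) ⟨_, _, hz⟩

end Pool.Agent.J4H56.AS
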