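import Mathlib
import Pool.Agent.J4H16.AS.Defs2
import Pool.Agent.J4H57.AS.All

/-! Project AS (helper16): job NCZ. -/

set_option autoImplicit false
open Set Filter Topology Metric Complex MeasureTheory

namespace Pool.Agent.J4H56.AS

open Pool.Agent.J4H16 Pool.Agent.J4H16.AS Pool.Agent.W746.LD

theorem t_NCZ0 (hGAPD : S_GAPD) : S_NCZ := by
  intro n c r ν A x C s h hd hI hx hs0 hs1 hThin
  have hn := h.hn
  obtain ⟨C0, c0, Kc⟩ := exists_KC
  have hc0 := Kc.pos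
  have hC0 := Kc.one_le
  have hνx : 0 < ‖ν x‖ := norm_pos_iff.mpr hx.ne
  have hn0 : (0 : ℝ) < n := by exact_mod_cast (by omega : 0 < n)
  obtain ⟨ε0, hε0, hε01, hgap⟩ := hGAPD (PC n c) C s hs0 hs1 hThin
  -- the constants
  set θ' : ℝ := min 1 (c0 ^ 2 / (4 * n * C0 ^ 2)) with hθ'
  have hθ'0 : 0 < θ' := lt_min one_pos (by positivity)
  have hθ'1 : θ' ≤ 1 := min_le_left _ _
  have hθ'2 : θ' * (4 * n * C0 ^ 2) ≤ c0 ^ 2 := by
    have : θ' ≤ c0 ^ 2 / (4 * n * C0 ^ 2) := min_le_right _ _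
    rwa [le_div_iff₀ (by positivity)] at this
  set κ : ℝ := θ' * ε0 / (64 * (C0 + 2)) with hκ
  have hκ0 : 0 < κ := by positivity
  set θ : ℝ := min (θ' * κ ^ 2 / 4) (1 / (n ^ 2)) with hθ
  have hθ0 : 0 < θ := lt_min (by positivity) (by positivity)
  have hθ1 : θ * 4 ≤ θ' * κ ^ 2 := by
    have : θ ≤ θ' * κ ^ 2 / 4 := min_le_left _ _
    linarith
  have hθ2 : n ^ 2 * θ ≤ 1 := by
    have : θ ≤ 1 / (n ^ 2) := min_le_right _ _
    rw [le_div_iff₀ (by positivity)] at this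
    linarith
  refine ⟨θ, hθ0, fun S0 hS0 => ?_⟩
  by_contra hcon
  push Not at hcon
  -- the hypothesis on gaps
  have H2 : HypII n c := by
    intro y hy
    refine Or.inr ⟨y, subset_closure ⟨0, rfl⟩, 1 + ε0, by linarith, fun η0 hη0 => ?_⟩
    obtain ⟨η, h1, h2, h3⟩ := hgap y (min (η0 / 8) (1 / 8)) (lt_min (by positivity) (by norm_num))
      (by
        have := min_le_right (η0 / 8) (1 / 8 : ℝ)
        linarith)
    have h4 : 0 < min (η0 / 8) (1 / 8 : ℝ) := lt_min (by positivity) (by norm_num)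
    have h5 := min_le_left (η0 / 8) (1 / 8 : ℝ)
    exact ⟨η, by linarith, by linarith, h3⟩
  obtain ⟨d, hd1, hd2⟩ := h.branch_small hd Kc (ε := S0 ^ n / (c0 * 2)) (by positivity)
  -- the scale
  set t : ℝ := min (min (S0 / 8) (d / 8)) (1 / 8) with ht
  have ht0 : 0 < t := lt_min (lt_min (by positivity) (by positivity)) (by norm_num)
  have ht1 : t ≤ 1 / 8 := min_le_right _ _
  have ht2 : t ≤ S0 / 8 := (min_le_left _ _).trans (min_le_left _ _)
  have ht3 : t ≤ d / 8 := (min_le_left _ _).trans (min_le_right _ _)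
  obtain ⟨R, hR1, hR2, hRg⟩ := hgap 0 t ht0 (by linarith)
  have hR0 : 0 < R := by linarith
  set R' : ℝ := (1 + ε0) * R with hR'
  have hR'0 : 0 < R' := by positivity
  have hR'2 : R' ≤ 2 * R := by
    rw [hR']
    nlinarith
  obtain ⟨N, hN⟩ := hx.conical h hd Kc hI (ρ := ε0 * R) (by positivity)
  obtain ⟨k, hkN, hk⟩ := hx.zero_acc' h hd Kc hI H2 hR0 N
  have hRR' : R ≤ R' := by
    rw [hR']
    nlinarith
  have hkb : orb n c x k ∈ ball (0 : ℂ) R' := by
    rw [mem_ball, dist_zero_right]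
    linarith
  -- the pull-back hits the critical value
  obtain ⟨i, hi, g, hg, hgx, v, hv, hgv⟩ : ∃ j < k, ∃ g, Br n c j 0 R' g ∧
      g (orb n c x k) = orb n c x (k - j) ∧ ∃ u ∈ ball (0 : ℂ) R', g u = c := by
    by_contra hno
    push Not at hno
    obtain ⟨G, h1, h2⟩ := exists_br hn hkb (x := x) (k := k)
      (fun j hj g hg hgx u hu => hno j hj g hg hgx u hu)
    refine hN k hkN G (h1.mono ?_) h2
    intro u hu
    rw [mem_ball, dist_eq_norm] at hu
    rw [mem_ball, dist_zero_right]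
    have := norm_add_le (u - orb n c x k) (orb n c x k)
    rw [sub_add_cancel] at this
    rw [hR']
    linarith
  have hvPC : v ∈ PC n c := by
    rw [← hg.crit hn hv hgv]
    exact orb_mem_PC (by omega)
  have hvR : ‖v‖ ≤ R := by
    by_contra hgt
    push Not at hgt
    rw [mem_ball, dist_zero_right] at hv
    refine hRg v hvPC ⟨by rwa [sub_zero], by rwa [sub_zero]⟩
  -- the ball around `v`
  have hsub : ball v (ε0 * R) ⊆ ball 0 R' := by
    intro u hu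
    rw [mem_ball, dist_eq_norm] at hu
    rw [mem_ball, dist_zero_right]
    have := norm_add_le (u - v) v
    rw [sub_add_cancel] at this
    rw [hR']
    linarith
  have hbr : Br n c i v (ε0 * R) g := hg.mono hsub
  have hεR : 0 < ε0 * R := by positivity
  set σ : ℝ := κ * R with hσ
  have hσ0 : 0 < σ := by positivity
  have hσ1 : 64 * (C0 + 2) * σ ≤ θ' * (ε0 * R) := by
    rw [hσ, hκ]
    apply le_of_eq
    field_simp
  have hσ2 : 4 * σ < ε0 * R := by
    have h1 : 0 < C0 * σ := by positivity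
    have h2 : θ' * (ε0 * R) ≤ 1 * (ε0 * R) := by gcongr
    have h3 : 64 * (C0 + 2) * σ = 64 * (C0 * σ) + 128 * σ := by ring
    linarith
  -- near constancy at the scale `R'`
  obtain ⟨l1, hl1, hl1'⟩ : NCz ν x θ R' := hcon R' hR'0 (by linarith)
  have hσR' : ball v σ ⊆ ball 0 R' := (ball_subset_ball (by linarith)).trans hsub
  have hv1 : ∫ w in ball v σ, ‖ν w - l1‖ ≤ θ' * ‖l1‖ * σ ^ 2 := by
    calc ∫ w in ball v σ, ‖ν w - l1‖ ≤ ∫ w in ball 0 R', ‖ν w - l1‖ :=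
          setIntegral_mono_set (hI.intOn _ (vol_ball_ne _ _))
            (Eventually.of_forall fun z => norm_nonneg _) (LE.le.eventuallyLE hσR')
      _ ≤ θ * ‖ν x‖ * R' ^ 2 := hl1'
      _ ≤ θ * ‖ν x‖ * (2 * R) ^ 2 := by gcongr
      _ = θ * 4 * (‖ν x‖ * R ^ 2) := by ring
      _ ≤ θ' * κ ^ 2 * (‖ν x‖ * R ^ 2) := by gcongr
      _ = θ' * ‖l1‖ * σ ^ 2 := by rw [hl1, hσ]; ring
  set D : ℝ := ‖deriv g v‖ with hD
  have hD0 : 0 < D := norm_pos_iff.mpr (hbr.deriv_ne (mem_ball_self hεR))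
  obtain ⟨T, hT, hTn⟩ := exists_root hn (y := c0 * σ * D) (by positivity)
  have hcover : ball c (T ^ n) ⊆ g '' ball v σ := by
    intro y hy
    rw [mem_ball, dist_eq_norm] at hy
    obtain ⟨h1, h2⟩ := hbr.cover Kc (z := v) (s := σ) hσ0 (ball_subset_ball (by linarith))
      (a := y) (by rw [hgv, ← hD, ← hTn]; exact hy)
    exact ⟨_, h1, h2⟩
  obtain ⟨l', hl2, hl2'⟩ := hI.transport hn Kc hθ'0 hσ0 hσ2 hσ1 hbr (l := l1) hv1 hcover
  -- the scale `T`
  have hTS : T ≤ S0 := by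
    apply le_of_pow_le_pow_left₀ (by omega : n ≠ 0) hS0.le
    rw [hTn]
    have hσd : σ ≤ d := by
      have h1 : ε0 * R ≤ 1 * R := by gcongr
      linarith
    have h2 := hd2 i v σ g hσ0 hσd (hbr.mono (ball_subset_ball (by linarith)))
      (by rw [hgv]; exact h.c_mem)
    calc c0 * σ * D = c0 * (σ * D) := by ring
      _ ≤ c0 * (S0 ^ n / (c0 * 2)) := by gcongr
      _ = S0 ^ n / 2 := by field_simp
      _ ≤ S0 ^ n := by
        have : 0 < S0 ^ n := by positivity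
        linarith
  obtain ⟨l2, hl3, hl3'⟩ : NCz ν x θ T := hcon T hT hTS
  have hfin := hI.final hn hT (l1 := l') (l2 := l2) (α := 2 * θ' * ‖ν x‖ * C0 ^ 2 / c0 ^ 2)
    (β := θ * ‖ν x‖) (by
      refine hl2'.trans (le_of_eq ?_)
      rw [hl1, hTn, ← hD]
      field_simp) hl3'
  rw [hl2, hl1] at hfin
  have h1 : n * (2 * θ' * ‖ν x‖ * C0 ^ 2 / c0 ^ 2) ≤ ‖ν x‖ := by
    have e : n * (2 * θ' * ‖ν x‖ * C0 ^ 2 / c0 ^ 2)
        = ‖ν x‖ * (θ' * (4 * n * C0 ^ 2)) / (2 * c0 ^ 2) := by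
      field_simp
      ring
    rw [e, div_le_iff₀ (by positivity)]
    have : ‖ν x‖ * (θ' * (4 * n * C0 ^ 2)) ≤ ‖ν x‖ * c0 ^ 2 := by gcongr
    have : 0 < ‖ν x‖ * c0 ^ 2 := by positivity
    linarith
  have h2 : n ^ 2 * (θ * ‖ν x‖) ≤ ‖ν x‖ := by
    calc n ^ 2 * (θ * ‖ν x‖) = n ^ 2 * θ * ‖ν x‖ := by ring
      _ ≤ 1 * ‖ν x‖ := by gcongr
      _ = ‖ν x‖ := one_mul _
  have h3 := Real.pi_gt_three
  nlinarith

theorem t_NCZ : S_NCZ := t_NCZ0 Pool.Agent.J4H57.AS.t_GAPD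

end Pool.Agent.J4H56.AS
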